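import Pool.Agent.Results.MP_f89135_nt.PlaneCurves
import Pool.Agent.Run7.h469.Fm

/-!
# Effective Shafarevich inequality for the integral approximations of almost all real plane curves, and for almost all members of all linear families

Let `d ≥ 3`, `g = (d - 1) (d - 2) / 2` and `n = (d + 1) (d + 2) / 2`, the number of the coefficients of a ternary form `a` of degree
`d`, and `κ > g / 2`. We call a smooth integral form `a` good if `h(a) ≤ κ ∑_(p in T) log p` for every finite set `T` of primes outside
of which the plane curve `a = 0` has good reduction; `h(a)` is the height of the result `PlaneCurves` of this problem, for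
semistable `a` the stable Faltings height of the curve. The result `PlaneCurves` bounds the number of smooth forms with coefficients
at most `H` which are not good by `C H^(n - c)`, `c > 0`. We deduce:

1. (Linear families) For all integer vectors `x` in `[-X, X]^D` with at most `C' K^(n (D + 2)) X^(D - c)` exceptions, `C'` depending
   on `D`, ALL smooth forms `M x + b` are good, for ALL integral matrices `M` with `n` independent rows and integral vectors `b`
   with entries at most `K`. Here `K` can be a small power of `X`: all these families of curves are treated at the same time.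
2. (Approximations of real curves) Let `N_i` be a lacunary sequence, for instance `N_i = 10^i`. For all real forms `α` outside a
   set of dimension at most `n - c`, for all `A`, all smooth integral forms `a` with `|a_m - N_i α_m| ≤ A` for all `m`, and `i` large,
   are good: the truncations of the decimal expansion of `α` satisfy the inequality.
3. (Points of metric spaces) Let `φ` be any map from the integral forms to a metric space and `τ > 0`. For all points `ξ` outside a
   set of dimension at most `(n - c) / τ`, for all `A`, all but finitely many of the smooth integral forms `a` with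
   `dist(φ(a), ξ) ≤ A |a|^(-τ)` are good.
4. For almost all real forms `α` 2. is true for all `κ > g / 2` at the same time.

The sets of integral forms in 2. and 3. have density zero. All the geometry and the height is in `PlaneCurves` (helper802 and others).
-/

set_option autoImplicit false

namespace Pool.Agent.Results.MP_f89135_nt.FormsNearRealForms

open MeasureTheory
open Pool.Agent.Results.MP_f89135_nt.PlaneCurves (Exponent IsSmooth HasBound)
open Run7.h469.Vk (Lacunary)
open Run7.h469.Fm (Exceptional NoneNear)

/-- The plane curve with the equation `form a = 0` is smooth and violates the inequality with the factor `κ`. -/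
def Bad {d : ℕ} (κ : ℝ) (a : Exponent d → ℤ) : Prop := IsSmooth a ∧ ¬ HasBound κ a

theorem exponent_nonempty (d : ℕ) : 1 ≤ Fintype.card (Exponent d) := by
  have h : Nonempty (Exponent d) := ⟨⟨![Fin.last d, 0, 0], by simp [Fin.sum_univ_three]⟩⟩
  exact Fintype.card_pos

theorem hasBound_mono {d : ℕ} {κ κ' : ℝ} (h : κ ≤ κ') {a : Exponent d → ℤ} (ha : HasBound κ a) : HasBound κ' a := by
  intro T hT hg
  refine (ha T hT hg).trans (mul_le_mul_of_nonneg_right h (Finset.sum_nonneg fun p hp => ?_))
  exact Real.log_nonneg (by exact_mod_cast (hT p hp).one_le)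

/-- **The effective Shafarevich inequality for integral forms near real forms and in linear families.** Let `d ≥ 3`,
`g = (d - 1) (d - 2) / 2`, `n` the number of coefficients of a ternary form of degree `d` and `ε > 0`. There are `c > 0` and `C` such
that: (1) for all `D` and `X, K ≥ 1`, for all but `C ((D + 1)^n 3^((n + 1) (D + 1))) K^(n (D + 2)) X^(D - c)` of the integer vectors
`x` in `[-X, X]^D` no form `M x + b`, `M` with independent rows, entries of `M` and `b` at most `K`, is smooth and violates the
inequality with the factor `g / 2 + ε`; (2) for lacunary `N_i`, for all real forms `α` outside a set of dimension at most `n - c`, for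
all `A`, for large `i` no integral form with coefficients at distance at most `A` from those of `N_i α` is smooth and violates the
inequality; (3) for all maps `φ` from the integral forms to a metric space and `τ > 0`, for all `ξ` outside a set of dimension at
most `(n - c) / τ`, for all `A` only finitely many smooth forms `a` with `dist(φ(a), ξ) ≤ A max(1, |a|)^(-τ)` violate it. (4) For
lacunary `N_i`, for almost all `α`, (2) is true for all `ε > 0`. -/
theorem result (d : ℕ) (hd : 3 ≤ d) :
    (∀ ε : ℝ, 0 < ε → ∃ c C : ℝ, 0 < c ∧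
      (∀ D X K : ℕ, 1 ≤ X → 1 ≤ K →
        (({x : Fin D → ℤ | (∀ j, |x j| ≤ X) ∧
          x ∈ Exceptional (Bad (d := d) (((d : ℝ) - 1) * ((d : ℝ) - 2) / 2 / 2 + ε)) D K}.ncard : ℕ) : ℝ) ≤
          C * (((D : ℝ) + 1) ^ Fintype.card (Exponent d) * 3 ^ ((Fintype.card (Exponent d) + 1) * (D + 1))) *
            (K : ℝ) ^ (Fintype.card (Exponent d) * (D + 2)) * (X : ℝ) ^ ((D : ℝ) - c)) ∧
      (∀ N : ℕ → ℝ, Lacunary N → ∃ E : Set (Exponent d → ℝ),
        dimH E ≤ ENNReal.ofReal ((Fintype.card (Exponent d) : ℝ) - c) ∧
        ∀ α, α ∉ E → NoneNear (Bad (((d : ℝ) - 1) * ((d : ℝ) - 2) / 2 / 2 + ε)) N α) ∧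
      (∀ (Y : Type) [MetricSpace Y] (φ : (Exponent d → ℤ) → Y) (τ : ℝ), 0 < τ → ∃ E : Set Y,
        dimH E ≤ ENNReal.ofReal (((Fintype.card (Exponent d) : ℝ) - c) / τ) ∧ ∀ ξ : Y, ξ ∉ E → ∀ A : ℝ,
          {a : Exponent d → ℤ | dist (φ a) ξ ≤ A * max 1 ‖(fun m => (a m : ℝ))‖ ^ (-τ) ∧
            Bad (((d : ℝ) - 1) * ((d : ℝ) - 2) / 2 / 2 + ε) a}.Finite)) ∧
    ∀ N : ℕ → ℝ, Lacunary N → ∀ᵐ α : Exponent d → ℝ, ∀ ε : ℝ, 0 < ε →
      NoneNear (Bad (((d : ℝ) - 1) * ((d : ℝ) - 2) / 2 / 2 + ε)) N α := by
  have hI := exponent_nonempty d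
  have hcount : ∀ ε : ℝ, 0 < ε → ∃ c C : ℝ, 0 < c ∧ c ≤ 1 ∧ 0 ≤ C ∧
      Run7.h469.Fm.Count (Bad (d := d) (((d : ℝ) - 1) * ((d : ℝ) - 2) / 2 / 2 + ε)) C c := by
    intro ε hε
    obtain ⟨⟨C, η, hη, h⟩, -, -⟩ := Pool.Agent.Results.MP_f89135_nt.PlaneCurves.result d hd ε hε
    refine ⟨min η 1, |C|, lt_min hη one_pos, min_le_right _ _, abs_nonneg _, Run7.h469.Fm.count_shrink ?_⟩
    intro H hH
    refine le_trans (le_of_eq ?_) (h H hH)
    rw [← Nat.card_coe_set_eq]
    rfl
  refine ⟨fun ε hε => ?_, fun N hN => ?_⟩
  · obtain ⟨c, C, hc, hc1, hC, h⟩ := hcount ε hε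
    exact ⟨c, C, hc, fun D X K hX hK => Run7.h469.Fm.families hC hc.le hc1 hI h D X K hX hK,
      fun N hN => Run7.h469.Fm.near hC hc.le hc1 hI h N hN,
      fun Y _ φ τ hτ => Run7.h469.Fm.metric hC hc1 hI h φ hτ⟩
  · have h1 : ∀ᵐ α : Exponent d → ℝ, ∀ j : ℕ,
        NoneNear (Bad (((d : ℝ) - 1) * ((d : ℝ) - 2) / 2 / 2 + 1 / ((j : ℝ) + 1))) N α := by
      rw [ae_all_iff]
      intro j
      obtain ⟨c, C, hc, hc1, hC, h⟩ := hcount (1 / ((j : ℝ) + 1)) (by positivity)
      obtain ⟨E, hE, hE2⟩ := Run7.h469.Fm.near hC hc.le hc1 hI h N hN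
      have hnull := Run7.h469.Fm.null hE hI (by linarith)
      rw [ae_iff]
      refine measure_mono_null ?_ hnull
      intro α hα
      by_contra hcon
      exact hα (hE2 α hcon)
    filter_upwards [h1] with α hα ε hε A
    obtain ⟨j, hj⟩ := exists_nat_one_div_lt hε
    obtain ⟨n₀, hn₀⟩ := hα j A
    refine ⟨n₀, fun n hn a ha hbad => hn₀ n hn a ha ⟨hbad.1, fun hb => hbad.2 (hasBound_mono ?_ hb)⟩⟩
    linarith

end Pool.Agent.Results.MP_f89135_nt.FormsNearRealForms
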