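import Pool.Agent.Run7.h457.ES.Main

/-!
# Effective Shafarevich conjecture for curves with a uniformly ramified morphism to a curve of genus ≤ 1

**Theorem.** There is a computable function `c` with the following property. Let `K` be a number field of
degree `n` with discriminant `± D`, let `N ≥ 1`, and let `X` be a curve over `K` of genus `g ≥ 2` with good
reduction at all finite places which do not divide `N`. Assume that over the algebraic closure of `K`
there is a finite morphism `φ` from `X` to a curve of genus `0` or `1` such that the ramification index of
`φ` at `P` depends only on `φ(P)`. Then the stable Faltings height of the Jacobian of `X` is at most
`c(n, D, N, g)`.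

A morphism `X → Y → Y/G` has this property if `X → Y` is étale and `G` is a finite group of automorphisms
of the curve `Y`. So the theorem applies to all étale covers of all curves `Y` which have a nontrivial
finite group `G` of automorphisms such that `Y/G` has genus at most `1`; for example to all curves of genus
`2` and their étale covers, all Galois covers of the projective line (de Jong and Rémond: cyclic covers of
prime degree), all bielliptic curves, and all smooth plane quartics with a nontrivial automorphism.
-/

set_option autoImplicit false

namespace Pool.Agent.Results.MP_f89135_nt.UniformMorphisms

open NumberField Run7.h457.ES

/-- **The effective Shafarevich conjecture for all curves with a uniformly ramified morphism to a curve of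
genus at most one**: the stable Faltings height is bounded by a computable function of the degree and
the discriminant of `K`, of `N` and of the genus, if there is good reduction outside `N`. -/
theorem result (T : CurveTheory) (F : FaltingsHeight T.toCurves) :
    ∃ c : ℕ × ℕ × ℕ × ℕ → ℕ, Computable c ∧
    ∀ (K : IntermediateField ℚ QBar) [NumberField K] (N : ℕ) (X : T.Curve), N ≠ 0 →
      2 ≤ T.genus X → T.Good K N X → T.IsSpecial X →
      F.h X ≤ c (Module.finrank ℚ K, (discr K).natAbs, N, T.genus X) :=
  faltings T F

end Pool.Agent.Results.MP_f89135_nt.UniformMorphisms
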